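import Pool.Agent.Lib.Balls.Geom
import Pool.Agent.Lib.Balls45.Place

set_option autoImplicit false

namespace Pool.Agent.Results.MP_9b7bf4_co.LineFourFifths

open Pool.Agent.Balls Pool.Agent.Balls45

/-- There are `n` closed balls of radius `r` in the closed unit ball of `ℝ³` such that no line
meets more than two of them. -/
def LineAdmissible (n : ℕ) (r : ℝ) : Prop :=
  ∃ c : Fin n → EuclideanSpace ℝ (Fin 3),
    (∀ i, Metric.closedBall (c i) r ⊆ Metric.closedBall 0 1) ∧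
    ∀ a v : EuclideanSpace ℝ (Fin 3), v ≠ 0 →
      {i : Fin n | ∃ t : ℝ, a + t • v ∈ Metric.closedBall (c i) r}.ncard ≤ 2

/-- The function `r_line` of the problem. -/
noncomputable def rLine (n : ℕ) : ℝ := sSup {r : ℝ | 0 < r ∧ LineAdmissible n r}

theorem admissible_le_one {n : ℕ} (hn : 1 ≤ n) {r : ℝ} (hr : 0 < r) (h : LineAdmissible n r) :
    r ≤ 1 := by
  obtain ⟨c, hc, _⟩ := h
  set i : Fin n := ⟨0, hn⟩
  set e : E3 := EuclideanSpace.single 0 1 with he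
  have hne : ‖e‖ = 1 := by rw [he, PiLp.norm_single]; simp
  have h1 : c i + r • e ∈ Metric.closedBall (c i) r := by
    rw [Metric.mem_closedBall, dist_eq_norm, add_sub_cancel_left, norm_smul, hne, Real.norm_eq_abs,
      abs_of_pos hr, mul_one]
  have h2 : c i - r • e ∈ Metric.closedBall (c i) r := by
    rw [Metric.mem_closedBall, dist_eq_norm, sub_sub_cancel_left, norm_neg, norm_smul, hne,
      Real.norm_eq_abs, abs_of_pos hr, mul_one]
  have h3 := hc i h1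
  have h4 := hc i h2
  rw [Metric.mem_closedBall, dist_zero_right] at h3 h4
  have h5 : ‖(c i + r • e) - (c i - r • e)‖ ≤ 2 := (norm_sub_le _ _).trans (by linarith)
  have h6 : (c i + r • e) - (c i - r • e) = (2 * r) • e := by
    rw [mul_smul, two_smul]; abel
  rw [h6, norm_smul, hne, Real.norm_eq_abs, abs_of_pos (by linarith)] at h5
  linarith

theorem admissible (N : ℕ) (hN : 1 ≤ N) (k : ℕ) (hk : k ≤ N ^ 10) :
    LineAdmissible k (1 / (10 ^ 8 * (N : ℝ) ^ 8)) := by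
  have hNR : (1 : ℝ) ≤ (N : ℝ) := by exact_mod_cast hN
  have hN0 : (0 : ℝ) < (N : ℝ) := by linarith
  set β : ℝ := 1 / (100 * (N : ℝ) ^ 2) with hβ
  set γ : ℝ := β / (1000 * N) with hγ
  have P : Par (N : ℝ) β γ := ⟨hNR, hβ, hγ⟩
  set M : ℝ := 4 * (N : ℝ) * ((N ^ 4 : ℕ) : ℝ) with hM
  have hM' : M = 4 * (N : ℝ) ^ 5 := by rw [hM]; push_cast; ring
  have hM1 : 1 ≤ M := by
    rw [hM']
    have : (1 : ℝ) ≤ (N : ℝ) ^ 5 := one_le_pow₀ hNR
    linarith
  set r : ℝ := 1 / (10 ^ 8 * (N : ℝ) ^ 8) with hr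
  have hr0 : 0 ≤ r := by rw [hr]; positivity
  have hr1 : r ≤ 1 / 10 ^ 8 := by
    rw [hr]
    apply one_div_le_one_div_of_le (by norm_num)
    have : (1 : ℝ) ≤ (N : ℝ) ^ 8 := one_le_pow₀ hNR
    linarith
  have hcard : Fintype.card (Fin k) ≤ Fintype.card (Idx N (N ^ 4)) := by
    rw [card_idx, Fintype.card_fin]
    calc k ≤ N ^ 10 := hk
      _ ≤ 4 * N ^ 10 := by omega
      _ = _ := by ring
  obtain ⟨f⟩ := Function.Embedding.nonempty_of_card_le hcard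
  have hτe : 6 * M * r = 24 / (10 ^ 8 * (N : ℝ) ^ 3) := by
    rw [hM', hr]; field_simp; norm_num
  have hτ : 0 < 6 * M * r := by rw [hτe]; positivity
  have hτ' : 20 * (6 * M * r) ≤ γ := by
    rw [hτe, hγ, hβ]
    have e : 1 / (100 * (N : ℝ) ^ 2) / (1000 * N) = 1000 / (10 ^ 8 * (N : ℝ) ^ 3) := by
      field_simp; norm_num
    rw [e, ← mul_div_assoc]
    apply div_le_div_of_nonneg_right _ (by positivity)
    norm_num
  have hK : 2 * (40 * r * M ^ 2) + 4 * (6 * M * r) * M + 4 * (6 * M * r) ^ 2 ≤ (N : ℝ) ^ 2 / 2 := by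
    have e1 : r * M ^ 2 = 16 / 10 ^ 8 * (N : ℝ) ^ 2 := by
      rw [hM', hr]; field_simp; norm_num
    have e2 : 2 * (40 * r * M ^ 2) + 4 * (6 * M * r) * M + 4 * (6 * M * r) ^ 2 =
        (104 + 144 * r) * (r * M ^ 2) := by ring
    rw [e2, e1]
    have e3 : (104 + 144 * r) * (16 / 10 ^ 8 * (N : ℝ) ^ 2) ≤ 1000 * (16 / 10 ^ 8 * (N : ℝ) ^ 2) := by
      apply mul_le_mul_of_nonneg_right _ (by positivity)
      linarith
    have e4 : 0 ≤ (N : ℝ) ^ 2 := by positivity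
    linarith
  have hb : ∀ i : Fin k, 0 ≤ (place β γ (f i)).1 ∧ (place β γ (f i)).1 ≤ M ∧
      0 ≤ (place β γ (f i)).2 ∧ (place β γ (f i)).2 ≤ M := fun i => place_bounds P (f i)
  refine ⟨fun i => pt M (place β γ (f i)), fun i => pt_ball hM1 (by linarith) (hb i), ?_⟩
  intro a v hv
  by_contra hcon
  rw [not_le, Set.two_lt_ncard (Set.toFinite _)] at hcon
  obtain ⟨i1, ⟨t1, m1⟩, i2, ⟨t2, m2⟩, i3, ⟨t3, m3⟩, h12, h13, h23⟩ := hcon
  have key : ∀ (i1 i2 i3 : Fin k) (t1 t2 t3 : ℝ), i1 ≠ i2 → i2 ≠ i3 → i1 ≠ i3 → t1 ≤ t2 → t2 ≤ t3 →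
      a + t1 • v ∈ Metric.closedBall (pt M (place β γ (f i1))) r →
      a + t2 • v ∈ Metric.closedBall (pt M (place β γ (f i2))) r →
      a + t3 • v ∈ Metric.closedBall (pt M (place β γ (f i3))) r → False := by
    intro i1 i2 i3 t1 t2 t3 n12 n23 n13 h1 h2 m1 m2 m3
    have hbad := three_bad hM1 hr0 (by linarith) (hb i1) (hb i3) a v h1 h2 m1 m2 m3
    exact place_not_bad hN P hM hτ hτ' hK (f.injective.ne n12) (f.injective.ne n23)
      (f.injective.ne n13) hbad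
  rcases le_total t1 t2 with a12 | a12 <;> rcases le_total t2 t3 with a23 | a23 <;>
    rcases le_total t1 t3 with a13 | a13
  · exact key i1 i2 i3 t1 t2 t3 h12 h23 h13 a12 a23 m1 m2 m3
  · exact key i1 i2 i3 t1 t2 t3 h12 h23 h13 a12 a23 m1 m2 m3
  · exact key i1 i3 i2 t1 t3 t2 h13 h23.symm h12 a13 a23 m1 m3 m2
  · exact key i3 i1 i2 t3 t1 t2 h13.symm h12 h23.symm a13 a12 m3 m1 m2
  · exact key i2 i1 i3 t2 t1 t3 h12.symm h13 h23 a12 a13 m2 m1 m3
  · exact key i2 i3 i1 t2 t3 t1 h23 h13.symm h12.symm a23 a13 m2 m3 m1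
  · exact key i3 i2 i1 t3 t2 t1 h23.symm h12.symm h13.symm a23 a12 m3 m2 m1
  · exact key i3 i2 i1 t3 t2 t1 h23.symm h12.symm h13.symm a23 a12 m3 m2 m1

/-- `r_line(n) ≥ c n^(-4/5)`. -/
theorem result : ∃ c : ℝ, 0 < c ∧ ∀ n : ℕ, 1 ≤ n → c * (n : ℝ) ^ (-(4 / 5) : ℝ) ≤ rLine n := by
  refine ⟨1 / (10 ^ 8 * 256), by norm_num, ?_⟩
  intro n hn
  have hnR : (1 : ℝ) ≤ (n : ℝ) := by exact_mod_cast hn
  set y : ℝ := (n : ℝ) ^ (1 / 10 : ℝ) with hy
  have hy1 : 1 ≤ y := Real.one_le_rpow hnR (by norm_num)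
  have hy10 : y ^ 10 = n := by
    rw [hy, ← Real.rpow_natCast, ← Real.rpow_mul (by linarith)]
    norm_num
  set j : ℕ := ⌈y⌉₊ with hj
  have hj1 : 1 ≤ j := Nat.one_le_ceil_iff.mpr (by linarith)
  have hjy : y ≤ (j : ℝ) := Nat.le_ceil y
  have hjy2 : (j : ℝ) < y + 1 := Nat.ceil_lt_add_one (by linarith)
  have hnj : n ≤ j ^ 10 := by
    have : (n : ℝ) ≤ (j : ℝ) ^ 10 := by
      rw [← hy10]
      exact pow_le_pow_left₀ (by linarith) hjy 10
    exact_mod_cast this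
  have hadm := admissible j hj1 n hnj
  have hjR : (1 : ℝ) ≤ (j : ℝ) := by exact_mod_cast hj1
  have hmem : (1 / (10 ^ 8 * (j : ℝ) ^ 8)) ∈ {r : ℝ | 0 < r ∧ LineAdmissible n r} :=
    ⟨by positivity, hadm⟩
  have hbdd : BddAbove {r : ℝ | 0 < r ∧ LineAdmissible n r} :=
    ⟨1, fun r hr => admissible_le_one hn hr.1 hr.2⟩
  refine le_trans ?_ (le_csSup hbdd hmem)
  have h1 : (n : ℝ) ^ (-(4 / 5) : ℝ) = 1 / y ^ 8 := by
    rw [Real.rpow_neg (by linarith), one_div]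
    congr 1
    rw [hy, ← Real.rpow_natCast, ← Real.rpow_mul (by linarith)]
    norm_num
  rw [h1]
  have h2 : (j : ℝ) ^ 8 ≤ (2 * y) ^ 8 := pow_le_pow_left₀ (by linarith) (by linarith) 8
  have h3 : (2 * y) ^ 8 = 256 * y ^ 8 := by ring
  rw [one_div_mul_one_div]
  apply one_div_le_one_div_of_le (by positivity)
  rw [h3] at h2
  linarith

end Pool.Agent.Results.MP_9b7bf4_co.LineFourFifths
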