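import Mathlib

set_option autoImplicit false

namespace Pool.Agent.Results.MP_9b7bf4_co.PlanarPower

/-- There are `n` closed disks of radius `r` in the closed unit disk of the plane such that no line
meets more than two of them. -/
def DiskAdmissible (n : ℕ) (r : ℝ) : Prop :=
  ∃ c : Fin n → EuclideanSpace ℝ (Fin 2),
    (∀ i, Metric.closedBall (c i) r ⊆ Metric.closedBall 0 1) ∧
    ∀ a v : EuclideanSpace ℝ (Fin 2), v ≠ 0 →
      {i : Fin n | ∃ t : ℝ, a + t • v ∈ Metric.closedBall (c i) r}.ncard ≤ 2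

/-- The planar function `r(n)` of the problem. -/
noncomputable def rDisk (n : ℕ) : ℝ := sSup {r : ℝ | 0 < r ∧ DiskAdmissible n r}

/-! ### The construction: two digit sums -/

/-- the ratio, slightly below `2 - √3` -/
noncomputable def lam : ℝ := 267945 / 1000000

/-- `∑ lam ^ k * w_k` over the binary digits -/
noncomputable def sx : ℕ → ℕ → ℝ
  | 0, _ => 0
  | M + 1, i => ((i % 2 : ℕ) : ℝ) + lam * sx M (i / 2)

/-- `∑ k * lam ^ k * w_k` over the binary digits -/
noncomputable def yx : ℕ → ℕ → ℝ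
  | 0, _ => 0
  | M + 1, i => lam * (yx M (i / 2) + sx M (i / 2))

noncomputable def sg : ℝ := 1000000 / 732055
noncomputable def bb : ℝ := lam * sg ^ 2

theorem lam_pos : 0 < lam := by unfold lam; norm_num
theorem sg_eq : lam * sg + 1 = sg := by unfold lam sg; norm_num
theorem bb_eq : lam * bb + lam * sg = bb := by unfold bb lam sg; norm_num
theorem sg_pos : 0 < sg := by unfold sg; norm_num
theorem bb_pos : 0 < bb := by unfold bb lam sg; norm_num

theorem mod_two_cast (i : ℕ) : ((i % 2 : ℕ) : ℝ) = 0 ∨ ((i % 2 : ℕ) : ℝ) = 1 := by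
  rcases Nat.mod_two_eq_zero_or_one i with h | h <;> simp [h]

/-- linear forms with nonnegative coefficients on differences -/
theorem lin_bound (M : ℕ) : ∀ (c : ℝ) (i j : ℕ), 0 ≤ c →
    |(yx M j - yx M i) + c * (sx M j - sx M i)| ≤ bb + c * sg := by
  induction M with
  | zero =>
    intro c i j hc
    simp only [yx, sx, sub_self, mul_zero, add_zero, abs_zero]
    have := bb_pos; have := sg_pos; positivity
  | succ M ih =>
    intro c i j hc
    have h := ih (1 + c) (i / 2) (j / 2) (by linarith)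
    have e1 : (yx (M + 1) j - yx (M + 1) i) + c * (sx (M + 1) j - sx (M + 1) i) =
        lam * ((yx M (j / 2) - yx M (i / 2)) + (1 + c) * (sx M (j / 2) - sx M (i / 2))) +
          c * (((j % 2 : ℕ) : ℝ) - ((i % 2 : ℕ) : ℝ)) := by
      simp only [yx, sx]; ring
    have hd : |((j % 2 : ℕ) : ℝ) - ((i % 2 : ℕ) : ℝ)| ≤ 1 := by
      rcases mod_two_cast i with h1 | h1 <;> rcases mod_two_cast j with h2 | h2 <;>
        rw [h1, h2] <;> norm_num
    rw [e1]
    calc _ ≤ |lam * ((yx M (j / 2) - yx M (i / 2)) + (1 + c) * (sx M (j / 2) - sx M (i / 2)))| +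
          |c * (((j % 2 : ℕ) : ℝ) - ((i % 2 : ℕ) : ℝ))| := abs_add_le _ _
      _ ≤ lam * (bb + (1 + c) * sg) + c * 1 := by
          rw [abs_mul, abs_mul, abs_of_pos lam_pos, abs_of_nonneg hc]
          exact add_le_add (mul_le_mul_of_nonneg_left h lam_pos.le)
            (mul_le_mul_of_nonneg_left hd hc)
      _ = (lam * bb + lam * sg) + c * (lam * sg + 1) := by ring
      _ = bb + c * sg := by rw [bb_eq, sg_eq]

theorem sx_diff_le (M i j : ℕ) : |sx M j - sx M i| ≤ sg := by
  induction M generalizing i j with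
  | zero => simp only [sx, sub_self, abs_zero]; exact sg_pos.le
  | succ M ih =>
    have h := ih (i / 2) (j / 2)
    have hd : |((j % 2 : ℕ) : ℝ) - ((i % 2 : ℕ) : ℝ)| ≤ 1 := by
      rcases mod_two_cast i with h1 | h1 <;> rcases mod_two_cast j with h2 | h2 <;>
        rw [h1, h2] <;> norm_num
    have e1 : sx (M + 1) j - sx (M + 1) i = lam * (sx M (j / 2) - sx M (i / 2)) +
        (((j % 2 : ℕ) : ℝ) - ((i % 2 : ℕ) : ℝ)) := by simp only [sx]; ring
    rw [e1]
    calc _ ≤ |lam * (sx M (j / 2) - sx M (i / 2))| + |((j % 2 : ℕ) : ℝ) - ((i % 2 : ℕ) : ℝ)| :=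
          abs_add_le _ _
      _ ≤ lam * sg + 1 := by
          rw [abs_mul, abs_of_pos lam_pos]
          exact add_le_add (mul_le_mul_of_nonneg_left h lam_pos.le) hd
      _ = sg := sg_eq

/-- gap between the two halves -/
noncomputable def gp : ℝ := 1 - lam * sg

theorem gp_pos : 0 < gp := by unfold gp lam sg; norm_num

theorem gp_lt : gp < 1 := by unfold gp lam sg; norm_num

theorem cross_gap {M i j : ℕ} (hi : i % 2 = 0) (hj : j % 2 = 1) :
    gp ≤ sx (M + 1) j - sx (M + 1) i := by
  have h := abs_le.1 (sx_diff_le M (i / 2) (j / 2))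
  have e1 : sx (M + 1) j - sx (M + 1) i = 1 + lam * (sx M (j / 2) - sx M (i / 2)) := by
    simp only [sx, hi, hj]; push_cast; ring
  rw [e1]; unfold gp
  have := mul_le_mul_of_nonneg_left h.1 lam_pos.le
  linarith

theorem sep (M : ℕ) : ∀ i j : ℕ, i < 2 ^ M → j < 2 ^ M → i ≠ j →
    gp * lam ^ M ≤ |sx M j - sx M i| := by
  induction M with
  | zero => intro i j hi hj hij; omega
  | succ M ih =>
    intro i j hi hj hij
    have hl1 : lam ^ (M + 1) ≤ 1 := by
      apply pow_le_one₀ lam_pos.le; unfold lam; norm_num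
    rcases Nat.mod_two_eq_zero_or_one i with a | a <;>
      rcases Nat.mod_two_eq_zero_or_one j with b | b
    · have h := ih (i / 2) (j / 2) (by omega) (by omega) (by omega)
      have e1 : sx (M + 1) j - sx (M + 1) i = lam * (sx M (j / 2) - sx M (i / 2)) := by
        simp only [sx, a, b]; ring
      rw [e1, abs_mul, abs_of_pos lam_pos, pow_succ]
      nlinarith [lam_pos]
    · have h := cross_gap (M := M) a b
      calc gp * lam ^ (M + 1) ≤ gp * 1 := mul_le_mul_of_nonneg_left hl1 gp_pos.le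
        _ ≤ _ := by rw [mul_one]; exact h.trans (le_abs_self _)
    · have h := cross_gap (M := M) b a
      calc gp * lam ^ (M + 1) ≤ gp * 1 := mul_le_mul_of_nonneg_left hl1 gp_pos.le
        _ ≤ _ := by rw [mul_one, abs_sub_comm]; exact h.trans (le_abs_self _)
    · have h := ih (i / 2) (j / 2) (by omega) (by omega) (by omega)
      have e1 : sx (M + 1) j - sx (M + 1) i = lam * (sx M (j / 2) - sx M (i / 2)) := by
        simp only [sx, a, b]; ring
      rw [e1, abs_mul, abs_of_pos lam_pos, pow_succ]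
      nlinarith [lam_pos]

/-- lower slope bound -/
noncomputable def ee : ℝ := bb / gp
/-- upper cross slope bound -/
noncomputable def f0 : ℝ := bb / sg
/-- upper cross slope bound when the next digit does not increase -/
noncomputable def ff : ℝ := lam ^ 2 * (bb + 2 * sg) / (1 + lam ^ 2 * sg)

theorem ee_pos : 0 < ee := div_pos bb_pos gp_pos

theorem key : ff < 1 - ee := by
  unfold ff ee gp bb lam sg; norm_num

theorem key2 : f0 < 2 - ee := by
  unfold f0 ee gp bb lam sg; norm_num

theorem f0_le_one : f0 ≤ 1 := by unfold f0 bb lam sg; norm_num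
theorem ff_le_one : ff ≤ 1 := by unfold ff bb lam sg; norm_num
theorem f0_nonneg : 0 ≤ f0 := by unfold f0 bb lam sg; norm_num

/-- lower slope bound for pairs, and the improved one for pairs in one half -/
theorem slope_low (M : ℕ) : ∀ i j : ℕ, sx M i < sx M j →
    -ee * (sx M j - sx M i) ≤ yx M j - yx M i := by
  induction M with
  | zero => intro i j h; simp [sx] at h
  | succ M ih =>
    intro i j h
    have same : i % 2 = j % 2 → -ee * (sx (M + 1) j - sx (M + 1) i) ≤ yx (M + 1) j - yx (M + 1) i := by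
      intro hp
      have e1 : sx (M + 1) j - sx (M + 1) i = lam * (sx M (j / 2) - sx M (i / 2)) := by
        simp only [sx, hp]; ring
      have e2 : yx (M + 1) j - yx (M + 1) i = lam * ((yx M (j / 2) - yx M (i / 2)) +
          (sx M (j / 2) - sx M (i / 2))) := by simp only [yx]; ring
      have h' : sx M (i / 2) < sx M (j / 2) := by
        have : 0 < lam * (sx M (j / 2) - sx M (i / 2)) := by rw [← e1]; linarith
        have := (mul_pos_iff_of_pos_left lam_pos).1 this
        linarith
      have := ih _ _ h'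
      rw [e1, e2]
      nlinarith [lam_pos, mul_nonneg lam_pos.le (sub_nonneg.2 h'.le)]
    rcases Nat.mod_two_eq_zero_or_one i with a | a <;>
      rcases Nat.mod_two_eq_zero_or_one j with b | b
    · exact same (by omega)
    · have hb := (abs_le.1 (lin_bound M (1 + ee) (i / 2) (j / 2) (by linarith [ee_pos]))).1
      have e1 : sx (M + 1) j - sx (M + 1) i = 1 + lam * (sx M (j / 2) - sx M (i / 2)) := by
        simp only [sx, a, b]; push_cast; ring
      have e2 : yx (M + 1) j - yx (M + 1) i = lam * ((yx M (j / 2) - yx M (i / 2)) +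
          (sx M (j / 2) - sx M (i / 2))) := by simp only [yx]; ring
      have e3 : lam * (bb + (1 + ee) * sg) = ee := by
        have : ee * gp = bb := by unfold ee; exact div_mul_cancel₀ _ gp_pos.ne'
        have h2 := bb_eq
        unfold gp at this
        nlinarith
      rw [e1, e2]
      have := mul_le_mul_of_nonneg_left hb lam_pos.le
      nlinarith
    · exfalso
      have := cross_gap (M := M) b a
      have := gp_pos
      linarith
    · exact same (by omega)

theorem slope_low_same (M : ℕ) (i j : ℕ) (hp : i % 2 = j % 2) (h : sx (M + 1) i < sx (M + 1) j) :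
    (1 - ee) * (sx (M + 1) j - sx (M + 1) i) ≤ yx (M + 1) j - yx (M + 1) i := by
  have e1 : sx (M + 1) j - sx (M + 1) i = lam * (sx M (j / 2) - sx M (i / 2)) := by
    simp only [sx, hp]; ring
  have e2 : yx (M + 1) j - yx (M + 1) i = lam * ((yx M (j / 2) - yx M (i / 2)) +
      (sx M (j / 2) - sx M (i / 2))) := by simp only [yx]; ring
  have h' : sx M (i / 2) < sx M (j / 2) := by
    have : 0 < lam * (sx M (j / 2) - sx M (i / 2)) := by rw [← e1]; linarith
    have := (mul_pos_iff_of_pos_left lam_pos).1 this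
    linarith
  have := slope_low M _ _ h'
  rw [e1, e2]
  nlinarith [lam_pos, mul_nonneg lam_pos.le (sub_nonneg.2 h'.le)]

/-- if two numbers agree in the last two digits the slope is at least `2 - ee` -/
theorem slope_low_same2 (M : ℕ) (i j : ℕ) (hp : i % 2 = j % 2) (hq : i / 2 % 2 = j / 2 % 2)
    (h : sx (M + 1) i < sx (M + 1) j) :
    (2 - ee) * (sx (M + 1) j - sx (M + 1) i) ≤ yx (M + 1) j - yx (M + 1) i := by
  have e1 : sx (M + 1) j - sx (M + 1) i = lam * (sx M (j / 2) - sx M (i / 2)) := by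
    simp only [sx, hp]; ring
  have e2 : yx (M + 1) j - yx (M + 1) i = lam * ((yx M (j / 2) - yx M (i / 2)) +
      (sx M (j / 2) - sx M (i / 2))) := by simp only [yx]; ring
  have h' : sx M (i / 2) < sx M (j / 2) := by
    have : 0 < lam * (sx M (j / 2) - sx M (i / 2)) := by rw [← e1]; linarith
    have := (mul_pos_iff_of_pos_left lam_pos).1 this
    linarith
  obtain _ | M := M
  · simp [sx] at h'
  have := slope_low_same M _ _ hq h'
  rw [e1, e2]
  nlinarith [lam_pos, mul_nonneg lam_pos.le (sub_nonneg.2 h'.le)]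

/-- cross slopes are at most `f0` -/
theorem cross_up (M : ℕ) (i j : ℕ) (a : i % 2 = 0) (b : j % 2 = 1) :
    yx (M + 1) j - yx (M + 1) i ≤ f0 * (sx (M + 1) j - sx (M + 1) i) := by
  have hb := (abs_le.1 (lin_bound M (1 - f0) (i / 2) (j / 2) (by linarith [f0_le_one]))).2
  have e1 : sx (M + 1) j - sx (M + 1) i = 1 + lam * (sx M (j / 2) - sx M (i / 2)) := by
    simp only [sx, a, b]; push_cast; ring
  have e2 : yx (M + 1) j - yx (M + 1) i = lam * ((yx M (j / 2) - yx M (i / 2)) +
      (sx M (j / 2) - sx M (i / 2))) := by simp only [yx]; ring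
  have e3 : lam * (bb + (1 - f0) * sg) = f0 := by
    have : f0 * sg = bb := by unfold f0; exact div_mul_cancel₀ _ sg_pos.ne'
    have h2 := bb_eq
    have h3 := sg_eq
    have h4 : f0 * (lam * sg) = f0 * (sg - 1) := by
      have h5 : lam * sg = sg - 1 := by linarith
      rw [h5]
    nlinarith
  rw [e1, e2]
  have := mul_le_mul_of_nonneg_left hb lam_pos.le
  nlinarith

/-- cross slopes with a next digit that does not increase -/
theorem cross_up' (M : ℕ) (i j : ℕ) (a : i % 2 = 0) (b : j % 2 = 1)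
    (hd : i / 2 % 2 = 1 ∨ j / 2 % 2 = 0) :
    yx (M + 2) j - yx (M + 2) i ≤ ff * (sx (M + 2) j - sx (M + 2) i) := by
  have hb := (abs_le.1 (lin_bound M (2 - ff) (i / 2 / 2) (j / 2 / 2) (by linarith [ff_le_one]))).2
  set d : ℝ := ((j / 2 % 2 : ℕ) : ℝ) - ((i / 2 % 2 : ℕ) : ℝ) with hdd
  have hd0 : d ≤ 0 := by
    rw [hdd]
    rcases hd with h | h
    · rw [h]; rcases mod_two_cast (j / 2) with h2 | h2 <;> rw [h2] <;> norm_num
    · rw [h]; rcases mod_two_cast (i / 2) with h2 | h2 <;> rw [h2] <;> norm_num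
  have e1 : sx (M + 2) j - sx (M + 2) i = 1 + lam * (d +
      lam * (sx M (j / 2 / 2) - sx M (i / 2 / 2))) := by
    simp only [sx, a, b, hdd]; push_cast; ring
  have e2 : yx (M + 2) j - yx (M + 2) i = lam * (lam * ((yx M (j / 2 / 2) - yx M (i / 2 / 2)) +
      (sx M (j / 2 / 2) - sx M (i / 2 / 2))) + d +
      lam * (sx M (j / 2 / 2) - sx M (i / 2 / 2))) := by
    simp only [yx, sx, hdd]; ring
  have e3 : lam ^ 2 * (bb + (2 - ff) * sg) = ff := by
    have : ff * (1 + lam ^ 2 * sg) = lam ^ 2 * (bb + 2 * sg) := by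
      unfold ff
      exact div_mul_cancel₀ _ (by have := lam_pos; have := sg_pos; positivity)
    nlinarith
  rw [e1, e2]
  have h5 := mul_le_mul_of_nonneg_left hb (by have := lam_pos; positivity : 0 ≤ lam ^ 2)
  have h6 : lam * (1 - ff) * d ≤ 0 :=
    mul_nonpos_of_nonneg_of_nonpos (mul_nonneg lam_pos.le (by linarith [ff_le_one])) hd0
  nlinarith

/-- `|Δy| ≤ (M + ee + 1) |Δs|` -/
theorem slope_up (M : ℕ) : ∀ i j : ℕ, sx M i < sx M j →
    yx M j - yx M i ≤ (M + f0) * (sx M j - sx M i) := by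
  induction M with
  | zero => intro i j h; simp [sx] at h
  | succ M ih =>
    intro i j h
    have same : i % 2 = j % 2 →
        yx (M + 1) j - yx (M + 1) i ≤ ((M + 1 : ℕ) + f0) * (sx (M + 1) j - sx (M + 1) i) := by
      intro hp
      have e1 : sx (M + 1) j - sx (M + 1) i = lam * (sx M (j / 2) - sx M (i / 2)) := by
        simp only [sx, hp]; ring
      have e2 : yx (M + 1) j - yx (M + 1) i = lam * ((yx M (j / 2) - yx M (i / 2)) +
          (sx M (j / 2) - sx M (i / 2))) := by simp only [yx]; ring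
      have h' : sx M (i / 2) < sx M (j / 2) := by
        have : 0 < lam * (sx M (j / 2) - sx M (i / 2)) := by rw [← e1]; linarith
        have := (mul_pos_iff_of_pos_left lam_pos).1 this
        linarith
      have h2 := mul_le_mul_of_nonneg_left (ih _ _ h') lam_pos.le
      rw [e1, e2]; push_cast
      nlinarith
    rcases Nat.mod_two_eq_zero_or_one i with a | a <;>
      rcases Nat.mod_two_eq_zero_or_one j with b | b
    · exact same (by omega)
    · have h1 := cross_up M i j a b
      have h2 : 0 ≤ (((M + 1 : ℕ) : ℝ)) * (sx (M + 1) j - sx (M + 1) i) :=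
        mul_nonneg (Nat.cast_nonneg _) (by linarith)
      linarith
    · exfalso
      have := cross_gap (M := M) b a
      have := gp_pos
      linarith
    · exact same (by omega)

theorem abs_slope (M i j : ℕ) (h : sx M i ≠ sx M j) :
    |yx M j - yx M i| ≤ (M + (1 + ee)) * |sx M j - sx M i| := by
  have hM : (0 : ℝ) ≤ M := Nat.cast_nonneg _
  have key : ∀ i j : ℕ, sx M i < sx M j →
      |yx M j - yx M i| ≤ (M + (1 + ee)) * |sx M j - sx M i| := by
    intro i j hlt
    have h1 := slope_low M i j hlt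
    have h2 := slope_up M i j hlt
    have hp : 0 < sx M j - sx M i := by linarith
    rw [abs_of_pos hp, abs_le]
    have := ee_pos
    have := f0_le_one
    constructor <;> nlinarith
  rcases lt_or_gt_of_ne h with h | h
  · exact key i j h
  · rw [abs_sub_comm, abs_sub_comm (sx M j)]; exact key j i h

noncomputable def eps : ℝ := min (1 - ee - ff) (2 - ee - f0)

theorem eps_pos : 0 < eps := lt_min (by linarith [key]) (by linarith [key2])

/-- the determinant of a triple -/
noncomputable def dt (M i j k : ℕ) : ℝ :=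
  (sx M j - sx M i) * (yx M k - yx M i) - (yx M j - yx M i) * (sx M k - sx M i)

/-- two slope bounds give a determinant bound -/
theorem det_of_slopes {p q u v m n e : ℝ} (hp : 0 < p) (hq : 0 < q) (h : e ≤ m - n)
    (h1 : (m * p ≤ u ∧ v ≤ n * q) ∨ (m * q ≤ v ∧ u ≤ n * p)) :
    e * (p * q) ≤ |p * (u + v) - u * (p + q)| := by
  have e1 : p * (u + v) - u * (p + q) = p * v - u * q := by ring
  have hpq : 0 < p * q := mul_pos hp hq
  rw [e1]
  rcases h1 with ⟨h1, h2⟩ | ⟨h1, h2⟩
  · have h3 : e * (p * q) ≤ u * q - p * v := by nlinarith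
    calc _ ≤ u * q - p * v := h3
      _ ≤ |u * q - p * v| := le_abs_self _
      _ = _ := abs_sub_comm _ _
  · have h3 : e * (p * q) ≤ p * v - u * q := by nlinarith
    exact h3.trans (le_abs_self _)

theorem dt_eq (M i j k : ℕ) : dt M i j k = (sx M j - sx M i) * ((yx M j - yx M i) +
    (yx M k - yx M j)) - (yx M j - yx M i) * ((sx M j - sx M i) + (sx M k - sx M j)) := by
  unfold dt; ring

theorem order_parity {M i j : ℕ} (h : sx (M + 1) i < sx (M + 1) j) (hi : i % 2 = 1) :
    j % 2 = 1 := by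
  by_contra hj
  have := cross_gap (M := M) (by omega : j % 2 = 0) hi
  have := gp_pos
  linarith

theorem half_lt {M i j : ℕ} (hp : i % 2 = j % 2) (h : sx (M + 1) i < sx (M + 1) j) :
    sx M (i / 2) < sx M (j / 2) := by
  have e1 : sx (M + 1) j - sx (M + 1) i = lam * (sx M (j / 2) - sx M (i / 2)) := by
    simp only [sx, hp]; ring
  have : 0 < lam * (sx M (j / 2) - sx M (i / 2)) := by rw [← e1]; linarith
  have := (mul_pos_iff_of_pos_left lam_pos).1 this
  linarith

theorem cross_case (M i j k : ℕ) (hi : i < 2 ^ (M + 1)) (hj : j < 2 ^ (M + 1))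
    (hk : k < 2 ^ (M + 1)) (h1 : sx (M + 1) i < sx (M + 1) j) (h2 : sx (M + 1) j < sx (M + 1) k)
    (hpar : i % 2 = 0 ∧ k % 2 = 1) :
    eps * ((sx (M + 1) j - sx (M + 1) i) * (sx (M + 1) k - sx (M + 1) j)) ≤
      |dt (M + 1) i j k| := by
  rw [dt_eq]
  obtain ⟨a, c⟩ := hpar
  have hp : 0 < sx (M + 1) j - sx (M + 1) i := by linarith
  have hq : 0 < sx (M + 1) k - sx (M + 1) j := by linarith
  rcases Nat.mod_two_eq_zero_or_one j with b | b
  · -- pair i j
    have h' := half_lt (by omega : i % 2 = j % 2) h1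
    by_cases hs : i / 2 % 2 = j / 2 % 2
    · exact det_of_slopes (m := 2 - ee) (n := f0) hp hq (min_le_right _ _)
        (Or.inl ⟨slope_low_same2 M i j (by omega) hs h1, cross_up M j k b c⟩)
    · obtain _ | M := M
      · simp [sx] at h'
      have hj2 : j / 2 % 2 = 1 := by
        by_contra hn
        have := order_parity h' (by omega)
        omega
      exact det_of_slopes (m := 1 - ee) (n := ff) hp hq (min_le_left _ _)
        (Or.inl ⟨slope_low_same (M + 1) i j (by omega) h1, cross_up' M j k b c (Or.inl hj2)⟩)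
  · -- pair j k
    have h' := half_lt (by omega : j % 2 = k % 2) h2
    by_cases hs : j / 2 % 2 = k / 2 % 2
    · exact det_of_slopes (m := 2 - ee) (n := f0) hp hq (min_le_right _ _)
        (Or.inr ⟨slope_low_same2 M j k (by omega) hs h2, cross_up M i j a b⟩)
    · obtain _ | M := M
      · simp [sx] at h'
      have hj2 : j / 2 % 2 = 0 := by
        by_contra hn
        have := order_parity h' (by omega)
        omega
      exact det_of_slopes (m := 1 - ee) (n := ff) hp hq (min_le_left _ _)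
        (Or.inr ⟨slope_low_same (M + 1) j k (by omega) h2, cross_up' M i j a b (Or.inr hj2)⟩)

theorem triple (M : ℕ) : ∀ i j k : ℕ, i < 2 ^ M → j < 2 ^ M → k < 2 ^ M →
    sx M i < sx M j → sx M j < sx M k →
    eps * gp ^ 2 * lam ^ M * (sx M k - sx M i) ≤ sg * |dt M i j k| := by
  induction M with
  | zero => intro i j k hi hj hk h1 h2; simp [sx] at h1
  | succ M ih =>
    intro i j k hi hj hk h1 h2
    by_cases hs : i % 2 = k % 2
    · have hs' : i % 2 = j % 2 := by
        rcases Nat.mod_two_eq_zero_or_one i with a | a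
        · by_contra hn
          have := order_parity h2 (by omega)
          omega
        · have := order_parity h1 a
          omega
      have e1 : ∀ u v : ℕ, u % 2 = v % 2 → sx (M + 1) v - sx (M + 1) u =
          lam * (sx M (v / 2) - sx M (u / 2)) := by
        intro u v huv; simp only [sx, huv]; ring
      have e2 : ∀ u v : ℕ, yx (M + 1) v - yx (M + 1) u = lam * ((yx M (v / 2) - yx M (u / 2)) +
          (sx M (v / 2) - sx M (u / 2))) := by intro u v; simp only [yx]; ring
      have h := ih (i / 2) (j / 2) (k / 2) (by omega) (by omega) (by omega) (half_lt hs' h1)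
        (half_lt (by omega) h2)
      have e3 : dt (M + 1) i j k = lam ^ 2 * dt M (i / 2) (j / 2) (k / 2) := by
        unfold dt
        rw [e1 i j hs', e1 i k hs, e2, e2]; ring
      rw [e3, e1 i k hs, abs_mul, abs_of_nonneg (by have := lam_pos; positivity : 0 ≤ lam ^ 2)]
      calc _ = lam ^ 2 * (eps * gp ^ 2 * lam ^ M * (sx M (k / 2) - sx M (i / 2))) := by
            rw [pow_succ]; ring
        _ ≤ lam ^ 2 * (sg * |dt M (i / 2) (j / 2) (k / 2)|) :=
            mul_le_mul_of_nonneg_left h (by have := lam_pos; positivity)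
        _ = _ := by ring
    · have hpar : i % 2 = 0 ∧ k % 2 = 1 := by
        rcases Nat.mod_two_eq_zero_or_one i with a | a
        · exact ⟨a, by omega⟩
        · have := order_parity (h1.trans h2) a
          omega
      have h := cross_case M i j k hi hj hk h1 h2 hpar
      have hik : sx (M + 1) k - sx (M + 1) i ≤ sg := (le_abs_self _).trans (sx_diff_le _ _ _)
      have hik0 : 0 < sx (M + 1) k - sx (M + 1) i := by linarith
      have hij : i ≠ j := by rintro rfl; exact lt_irrefl _ h1
      have hjk : j ≠ k := by rintro rfl; exact lt_irrefl _ h2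
      have s1 := sep (M + 1) i j hi hj hij
      have s2 := sep (M + 1) j k hj hk hjk
      rw [abs_of_pos (by linarith : 0 < sx (M + 1) j - sx (M + 1) i)] at s1
      rw [abs_of_pos (by linarith : 0 < sx (M + 1) k - sx (M + 1) j)] at s2
      have hl : 0 < lam ^ (M + 1) := pow_pos lam_pos _
      have hg := gp_pos
      have hprod : gp ^ 2 * lam ^ (M + 1) ≤
          (sx (M + 1) j - sx (M + 1) i) * (sx (M + 1) k - sx (M + 1) j) := by
        rcases Nat.mod_two_eq_zero_or_one j with b | b
        · have c2 := cross_gap (M := M) b hpar.2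
          calc _ = (gp * lam ^ (M + 1)) * gp := by ring
            _ ≤ _ := mul_le_mul s1 c2 hg.le (by linarith)
        · have c2 := cross_gap (M := M) hpar.1 b
          calc _ = gp * (gp * lam ^ (M + 1)) := by ring
            _ ≤ _ := mul_le_mul c2 s2 (by positivity) (by linarith)
      have he := eps_pos
      calc eps * gp ^ 2 * lam ^ (M + 1) * (sx (M + 1) k - sx (M + 1) i)
          ≤ eps * gp ^ 2 * lam ^ (M + 1) * sg := mul_le_mul_of_nonneg_left hik (by positivity)
        _ = sg * (eps * (gp ^ 2 * lam ^ (M + 1))) := by ring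
        _ ≤ sg * (eps * ((sx (M + 1) j - sx (M + 1) i) * (sx (M + 1) k - sx (M + 1) j))) :=
            mul_le_mul_of_nonneg_left (mul_le_mul_of_nonneg_left hprod he.le) sg_pos.le
        _ ≤ sg * |dt (M + 1) i j k| := mul_le_mul_of_nonneg_left h sg_pos.le

/-! ### From the digit sums to disks -/

/-- three points within distance `R / V` of a line have a small determinant -/
theorem line_det {p1 p2 p3 q1 q2 q3 v0 v1 a0 a1 r B W : ℝ} (hr : 0 ≤ r) (hB : 0 ≤ B)
    (hv : 0 < |v0| + |v1|)
    (h1 : |(a0 - p1) * v1 - (a1 - q1) * v0| ≤ r * (|v0| + |v1|))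
    (h2 : |(a0 - p2) * v1 - (a1 - q2) * v0| ≤ r * (|v0| + |v1|))
    (h3 : |(a0 - p3) * v1 - (a1 - q3) * v0| ≤ r * (|v0| + |v1|))
    (hp2 : |p2 - p1| ≤ W) (hp3 : |p3 - p1| ≤ W) (hq2 : |q2 - q1| ≤ B * W)
    (hq3 : |q3 - q1| ≤ B * W) :
    |(p2 - p1) * (q3 - q1) - (q2 - q1) * (p3 - p1)| ≤ 4 * r * (1 + B) * W := by
  set V := |v0| + |v1| with hV
  set D := (p2 - p1) * (q3 - q1) - (q2 - q1) * (p3 - p1) with hD
  set g2 := ((a0 - p1) * v1 - (a1 - q1) * v0) - ((a0 - p2) * v1 - (a1 - q2) * v0) with hg2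
  set g3 := ((a0 - p1) * v1 - (a1 - q1) * v0) - ((a0 - p3) * v1 - (a1 - q3) * v0) with hg3
  have b2 : |g2| ≤ 2 * (r * V) := by
    calc |g2| ≤ _ := abs_sub _ _
      _ ≤ _ := by linarith
  have b3 : |g3| ≤ 2 * (r * V) := by
    calc |g3| ≤ _ := abs_sub _ _
      _ ≤ _ := by linarith
  have hrV : 0 ≤ 2 * (r * V) := by positivity
  have hW : 0 ≤ W := (abs_nonneg _).trans hp2
  have e0 : v0 * D = g2 * (p3 - p1) - (p2 - p1) * g3 := by rw [hD, hg2, hg3]; ring
  have e1 : v1 * D = g2 * (q3 - q1) - (q2 - q1) * g3 := by rw [hD, hg2, hg3]; ring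
  have c0 : |v0| * |D| ≤ 2 * (r * V) * W + W * (2 * (r * V)) := by
    rw [← abs_mul, e0]
    refine (abs_sub _ _).trans ?_
    rw [abs_mul, abs_mul]
    exact add_le_add (mul_le_mul b2 hp3 (abs_nonneg _) hrV) (mul_le_mul hp2 b3 (abs_nonneg _) hW)
  have c1 : |v1| * |D| ≤ 2 * (r * V) * (B * W) + B * W * (2 * (r * V)) := by
    rw [← abs_mul, e1]
    refine (abs_sub _ _).trans ?_
    rw [abs_mul, abs_mul]
    exact add_le_add (mul_le_mul b2 hq3 (abs_nonneg _) hrV)
      (mul_le_mul hq2 b3 (abs_nonneg _) (by positivity))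
  have c2 : V * |D| ≤ V * (4 * r * (1 + B) * W) := by
    calc V * |D| = |v0| * |D| + |v1| * |D| := by rw [hV]; ring
      _ ≤ _ := add_le_add c0 c1
      _ = _ := by ring
  exact le_of_mul_le_mul_left c2 hv

theorem coord_le {x : EuclideanSpace ℝ (Fin 2)} {r : ℝ} (h : ‖x‖ ≤ r) (i : Fin 2) : |x i| ≤ r := by
  have := PiLp.norm_apply_le x i
  rw [Real.norm_eq_abs] at this
  exact this.trans h

theorem norm_le_sum (a b : ℝ) : ‖(!₂[a, b] : EuclideanSpace ℝ (Fin 2))‖ ≤ |a| + |b| := by
  rw [EuclideanSpace.norm_eq, Real.sqrt_le_left (by positivity)]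
  simp only [Fin.sum_univ_two, Real.norm_eq_abs]
  simp
  nlinarith [abs_nonneg a, abs_nonneg b, sq_abs a, sq_abs b, mul_nonneg (abs_nonneg a) (abs_nonneg b)]

theorem sx_zero (M : ℕ) : sx M 0 = 0 := by
  induction M with
  | zero => rfl
  | succ M ih => simp [sx, ih]

theorem yx_zero (M : ℕ) : yx M 0 = 0 := by
  induction M with
  | zero => rfl
  | succ M ih => simp [yx, ih, sx_zero]

noncomputable def kap : ℝ := eps * gp ^ 2 / (16 * sg)

theorem kap_pos : 0 < kap := by
  have := eps_pos; have := gp_pos; have := sg_pos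
  unfold kap; positivity

theorem kap_le : kap ≤ 1 / 16 := by
  have h1 : eps ≤ 1 := (min_le_left _ _).trans (by
    have := ee_pos
    have : 0 ≤ ff := by unfold ff bb lam sg; norm_num
    linarith)
  have h2 : gp ^ 2 ≤ 1 := pow_le_one₀ gp_pos.le gp_lt.le
  have h3 : 1 ≤ sg := by unfold sg; norm_num
  have h4 : eps * gp ^ 2 ≤ 1 := by
    have := eps_pos
    have := gp_pos
    calc eps * gp ^ 2 ≤ 1 * 1 := mul_le_mul h1 h2 (by positivity) (by norm_num)
      _ = 1 := by norm_num
  unfold kap
  rw [div_le_div_iff₀ (by linarith) (by norm_num)]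
  linarith

noncomputable def rad (M : ℕ) : ℝ := kap * lam ^ M / (M + 2 + ee)

theorem den_pos (M : ℕ) : (0 : ℝ) < M + 2 + ee := by
  have := ee_pos
  have : (0 : ℝ) ≤ M := Nat.cast_nonneg _
  linarith

theorem rad_pos (M : ℕ) : 0 < rad M :=
  div_pos (mul_pos kap_pos (pow_pos lam_pos _)) (den_pos M)

theorem rad_le (M : ℕ) : rad M ≤ 1 / 32 := by
  have h1 : kap * lam ^ M ≤ 1 / 16 := by
    have : lam ^ M ≤ 1 := pow_le_one₀ lam_pos.le (by unfold lam; norm_num)
    calc _ ≤ kap * 1 := mul_le_mul_of_nonneg_left this kap_pos.le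
      _ ≤ _ := by rw [mul_one]; exact kap_le
  unfold rad
  rw [div_le_iff₀ (den_pos M)]
  have := ee_pos
  have : (0 : ℝ) ≤ M := Nat.cast_nonneg _
  linarith

theorem admissible (M n : ℕ) (hn : n ≤ 2 ^ M) : DiskAdmissible n (rad M) := by
  refine ⟨fun i => !₂[sx M i / 2, yx M i / 2], ?_, ?_⟩
  · intro i x hx
    rw [mem_closedBall_iff_norm] at hx ⊢
    rw [sub_zero]
    have h1 : |sx M i| ≤ sg := by
      have := sx_diff_le M 0 i; rwa [sx_zero, sub_zero] at this
    have h2 : |yx M i| ≤ bb := by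
      have := lin_bound M 0 0 i le_rfl
      simpa [sx_zero, yx_zero] using this
    have h3 : ‖(!₂[sx M i / 2, yx M i / 2] : EuclideanSpace ℝ (Fin 2))‖ ≤ sg / 2 + bb / 2 := by
      refine (norm_le_sum _ _).trans ?_
      rw [abs_div, abs_div, abs_of_pos (by norm_num : (0 : ℝ) < 2)]
      linarith
    have h4 : sg / 2 + bb / 2 + 1 / 32 ≤ 1 := by unfold bb lam sg; norm_num
    have h5 := rad_le M
    calc ‖x‖ = ‖(x - !₂[sx M i / 2, yx M i / 2]) + !₂[sx M i / 2, yx M i / 2]‖ := by
          rw [sub_add_cancel]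
      _ ≤ _ := norm_add_le _ _
      _ ≤ 1 := by linarith
  · intro a v hv
    by_contra hcon
    rw [not_le, Set.two_lt_ncard (Set.toFinite _)] at hcon
    obtain ⟨i1, ⟨t1, m1⟩, i2, ⟨t2, m2⟩, i3, ⟨t3, m3⟩, h12, h13, h23⟩ := hcon
    have hV : 0 < |v 0| + |v 1| := by
      rcases (add_nonneg (abs_nonneg (v 0)) (abs_nonneg (v 1))).lt_or_eq with h | h
      · exact h
      · exfalso
        apply hv
        have h0 : |v 0| = 0 := by linarith [abs_nonneg (v 0), abs_nonneg (v 1)]
        have h1 : |v 1| = 0 := by linarith [abs_nonneg (v 0), abs_nonneg (v 1)]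
        ext i
        fin_cases i
        · simpa using h0
        · simpa using h1
    have near : ∀ (i : Fin n) (t : ℝ),
        a + t • v ∈ Metric.closedBall (!₂[sx M i / 2, yx M i / 2] : EuclideanSpace ℝ (Fin 2)) (rad M) →
        |(a 0 - sx M i / 2) * v 1 - (a 1 - yx M i / 2) * v 0| ≤ rad M * (|v 0| + |v 1|) := by
      intro i t h
      rw [mem_closedBall_iff_norm] at h
      have w0 := coord_le h 0
      have w1 := coord_le h 1
      simp at w0 w1
      have e : (a 0 - sx M i / 2) * v 1 - (a 1 - yx M i / 2) * v 0 =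
          (a 0 + t * v 0 - sx M i / 2) * v 1 - (a 1 + t * v 1 - yx M i / 2) * v 0 := by ring
      rw [e]
      calc _ ≤ |(a 0 + t * v 0 - sx M i / 2) * v 1| + |(a 1 + t * v 1 - yx M i / 2) * v 0| :=
            abs_sub _ _
        _ ≤ rad M * |v 1| + rad M * |v 0| := by
            rw [abs_mul, abs_mul]
            exact add_le_add (mul_le_mul_of_nonneg_right w0 (abs_nonneg _))
              (mul_le_mul_of_nonneg_right w1 (abs_nonneg _))
        _ = _ := by ring
    have main : ∀ i j k : Fin n, sx M i < sx M j → sx M j < sx M k →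
        |(a 0 - sx M i / 2) * v 1 - (a 1 - yx M i / 2) * v 0| ≤ rad M * (|v 0| + |v 1|) →
        |(a 0 - sx M j / 2) * v 1 - (a 1 - yx M j / 2) * v 0| ≤ rad M * (|v 0| + |v 1|) →
        |(a 0 - sx M k / 2) * v 1 - (a 1 - yx M k / 2) * v 0| ≤ rad M * (|v 0| + |v 1|) →
        False := by
      intro i j k hij hjk b1 b2 b3
      have hik := hij.trans hjk
      have hM : (0 : ℝ) ≤ M := Nat.cast_nonneg _
      have hee := ee_pos
      have hB : (0 : ℝ) ≤ M + (1 + ee) := by linarith
      have s1 := abs_slope M i j hij.ne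
      have s2 := abs_slope M i k hik.ne
      have a1' : |sx M j - sx M i| = sx M j - sx M i := abs_of_pos (by linarith)
      have a2' : |sx M k - sx M i| = sx M k - sx M i := abs_of_pos (by linarith)
      rw [a1'] at s1
      rw [a2'] at s2
      have d := line_det (B := M + (1 + ee)) (W := (sx M k - sx M i) / 2) (rad_pos M).le hB hV
        b1 b2 b3
        (by rw [← sub_div, abs_div, a1', abs_of_pos (by norm_num : (0 : ℝ) < 2)]; linarith)
        (by rw [← sub_div, abs_div, a2', abs_of_pos (by norm_num : (0 : ℝ) < 2)])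
        (by
          rw [← sub_div, abs_div, abs_of_pos (by norm_num : (0 : ℝ) < 2), ← mul_div_assoc]
          apply div_le_div_of_nonneg_right _ (by norm_num)
          exact s1.trans (mul_le_mul_of_nonneg_left (by linarith) hB))
        (by
          rw [← sub_div, abs_div, abs_of_pos (by norm_num : (0 : ℝ) < 2), ← mul_div_assoc]
          exact div_le_div_of_nonneg_right s2 (by norm_num))
      have e : (sx M j / 2 - sx M i / 2) * (yx M k / 2 - yx M i / 2) -
          (yx M j / 2 - yx M i / 2) * (sx M k / 2 - sx M i / 2) = dt M i j k / 4 := by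
        unfold dt; ring
      rw [e, abs_div, abs_of_pos (by norm_num : (0 : ℝ) < 4)] at d
      have T := triple M i j k (lt_of_lt_of_le i.2 hn) (lt_of_lt_of_le j.2 hn)
        (lt_of_lt_of_le k.2 hn) hij hjk
      have hden := den_pos M
      have er : rad M * (M + 2 + ee) = kap * lam ^ M := by
        unfold rad; exact div_mul_cancel₀ _ hden.ne'
      have ek : eps * gp ^ 2 = kap * (16 * sg) := by
        unfold kap
        have := sg_pos
        exact (div_mul_cancel₀ _ (by positivity)).symm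
      have hpos : 0 < sx M k - sx M i := by linarith
      have hl : 0 < kap * lam ^ M := mul_pos kap_pos (pow_pos lam_pos _)
      have hs := sg_pos
      have d2 : |dt M i j k| ≤ 8 * (kap * lam ^ M) * (sx M k - sx M i) := by
        have : 4 * rad M * (1 + (M + (1 + ee))) * ((sx M k - sx M i) / 2) =
            2 * (rad M * (M + 2 + ee)) * (sx M k - sx M i) := by ring
        rw [this, er] at d
        linarith
      have T2 : 16 * sg * (kap * lam ^ M) * (sx M k - sx M i) ≤ sg * |dt M i j k| := by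
        calc _ = eps * gp ^ 2 * lam ^ M * (sx M k - sx M i) := by rw [ek]; ring
          _ ≤ _ := T
      have T3 : sg * |dt M i j k| ≤ sg * (8 * (kap * lam ^ M) * (sx M k - sx M i)) :=
        mul_le_mul_of_nonneg_left d2 hs.le
      have : 0 < sg * ((kap * lam ^ M) * (sx M k - sx M i)) := by positivity
      nlinarith
    have inj : ∀ i j : Fin n, i ≠ j → sx M i ≠ sx M j := by
      intro i j hij heq
      have := sep M i j (lt_of_lt_of_le i.2 hn) (lt_of_lt_of_le j.2 hn)
        (fun h => hij (Fin.ext h))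
      rw [heq, sub_self, abs_zero] at this
      have h2 : 0 < gp * lam ^ M := mul_pos gp_pos (pow_pos lam_pos _)
      linarith
    have n1 := near _ _ m1
    have n2 := near _ _ m2
    have n3 := near _ _ m3
    rcases lt_or_gt_of_ne (inj _ _ h12) with a12 | a12 <;>
      rcases lt_or_gt_of_ne (inj _ _ h23) with a23 | a23 <;>
      rcases lt_or_gt_of_ne (inj _ _ h13) with a13 | a13
    · exact main i1 i2 i3 a12 a23 n1 n2 n3
    · exact absurd (a12.trans a23) (lt_asymm a13)
    · exact main i1 i3 i2 a13 a23 n1 n3 n2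
    · exact main i3 i1 i2 a13 a12 n3 n1 n2
    · exact main i2 i1 i3 a12 a13 n2 n1 n3
    · exact main i2 i3 i1 a23 a13 n2 n3 n1
    · exact absurd (a23.trans a12) (lt_asymm a13)
    · exact main i3 i2 i1 a23 a12 n3 n2 n1

theorem admissible_le_one {n : ℕ} (hn : 1 ≤ n) {r : ℝ} (hr : 0 < r) (h : DiskAdmissible n r) :
    r ≤ 1 := by
  obtain ⟨c, hc, _⟩ := h
  set i : Fin n := ⟨0, hn⟩
  set e : EuclideanSpace ℝ (Fin 2) := EuclideanSpace.single 0 1 with he
  have hne : ‖e‖ = 1 := by rw [he, PiLp.norm_single]; simp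
  have h1 : c i + r • e ∈ Metric.closedBall (c i) r := by
    rw [Metric.mem_closedBall, dist_eq_norm, add_sub_cancel_left, norm_smul, hne, Real.norm_eq_abs,
      abs_of_pos hr, mul_one]
  have h2 : c i - r • e ∈ Metric.closedBall (c i) r := by
    rw [Metric.mem_closedBall, dist_eq_norm, sub_sub_cancel_left, norm_neg, norm_smul, hne,
      Real.norm_eq_abs, abs_of_pos hr, mul_one]
  have h3 := hc i h1
  have h4 := hc i h2
  rw [Metric.mem_closedBall, dist_zero_right] at h3 h4
  have h5 : ‖(c i + r • e) - (c i - r • e)‖ ≤ 2 := (norm_sub_le _ _).trans (by linarith)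
  have h6 : (c i + r • e) - (c i - r • e) = (2 * r) • e := by
    rw [mul_smul, two_smul]; abel
  rw [h6, norm_smul, hne, Real.norm_eq_abs, abs_of_pos (by linarith)] at h5
  linarith

theorem rad_le_rDisk {n M : ℕ} (hn : 1 ≤ n) (h : n ≤ 2 ^ M) : rad M ≤ rDisk n :=
  le_csSup ⟨1, fun _ hr => admissible_le_one hn hr.1 hr.2⟩ ⟨rad_pos M, admissible M n h⟩

/-- `2 ^ (-19/10)`, smaller than `lam` -/
noncomputable def bet : ℝ := (2 : ℝ) ^ (-(19 / 10) : ℝ)

theorem bet_pos : 0 < bet := Real.rpow_pos_of_pos (by norm_num) _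

theorem bet_lt : bet < lam := by
  have h1 : bet ^ 10 = 1 / 2 ^ 19 := by
    unfold bet
    rw [← Real.rpow_natCast, ← Real.rpow_mul (by norm_num)]
    norm_num
  have h2 : bet ^ 10 < lam ^ 10 := by
    rw [h1]; unfold lam; norm_num
  exact lt_of_pow_lt_pow_left₀ 10 lam_pos.le h2

/-- The planar radius `r(n)` is at least `c * n ^ (-19/10)`. -/
theorem result : ∃ c : ℝ, 0 < c ∧ ∀ n : ℕ, 1 ≤ n → c * (n : ℝ) ^ (-(19 / 10) : ℝ) ≤ rDisk n := by
  set δ : ℝ := lam / bet - 1 with hδ
  have hb := bet_pos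
  have hδ0 : 0 < δ := by
    rw [hδ, sub_pos, one_lt_div hb]; exact bet_lt
  have hee := ee_pos
  have hC : 0 < 1 / δ + 2 + ee := by positivity
  have h2 : 0 < (2 : ℝ) ^ (19 / 10 : ℝ) := Real.rpow_pos_of_pos (by norm_num) _
  refine ⟨kap / ((1 / δ + 2 + ee) * (2 : ℝ) ^ (19 / 10 : ℝ)),
    div_pos kap_pos (mul_pos hC h2), ?_⟩
  intro n hn
  have hnR : (1 : ℝ) ≤ (n : ℝ) := by exact_mod_cast hn
  obtain ⟨M, hM1, hM2⟩ : ∃ M : ℕ, n ≤ 2 ^ M ∧ 2 ^ M ≤ 2 * n := by
    rcases Nat.lt_or_ge 1 n with h | h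
    · refine ⟨Nat.clog 2 n, Nat.le_pow_clog (by norm_num) n, ?_⟩
      have h3 := Nat.pow_pred_clog_lt_self (by norm_num : 1 < 2) h
      have h4 : 0 < Nat.clog 2 n := Nat.clog_pos (by norm_num) h
      obtain ⟨k, hk⟩ := Nat.exists_eq_succ_of_ne_zero h4.ne'
      rw [hk, Nat.pred_succ] at h3
      rw [hk, Nat.succ_eq_add_one, pow_succ]
      omega
    · exact ⟨0, by omega, by omega⟩
  have hM2' : (2 : ℝ) ^ M ≤ 2 * n := by exact_mod_cast hM2
  refine le_trans ?_ (rad_le_rDisk hn hM1)
  have e1 : (n : ℝ) ^ (-(19 / 10) : ℝ) ≤ (2 : ℝ) ^ (19 / 10 : ℝ) * bet ^ M := by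
    have e2 : (n : ℝ) ^ (-(19 / 10) : ℝ) =
        (2 : ℝ) ^ (19 / 10 : ℝ) * (2 * (n : ℝ)) ^ (-(19 / 10) : ℝ) := by
      rw [Real.mul_rpow (by norm_num) (by linarith), ← mul_assoc,
        ← Real.rpow_add (by norm_num)]
      norm_num
    have e3 : (2 * (n : ℝ)) ^ (-(19 / 10) : ℝ) ≤ ((2 : ℝ) ^ M) ^ (-(19 / 10) : ℝ) :=
      Real.rpow_le_rpow_of_nonpos (by positivity) hM2' (by norm_num)
    have e4 : ((2 : ℝ) ^ M) ^ (-(19 / 10) : ℝ) = bet ^ M := by
      unfold bet
      rw [← Real.rpow_natCast, ← Real.rpow_natCast, ← Real.rpow_mul (by norm_num),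
        ← Real.rpow_mul (by norm_num), mul_comm]
    rw [e2]
    exact mul_le_mul_of_nonneg_left (e3.trans e4.le) h2.le
  have e5 : bet ^ M / (1 / δ + 2 + ee) ≤ lam ^ M / (M + 2 + ee) := by
    have e6 : lam = bet * (1 + δ) := by rw [hδ]; field_simp; ring
    have e7 : 1 + (M : ℝ) * δ ≤ (1 + δ) ^ M := one_add_mul_le_pow (by linarith) M
    have hM0 : (0 : ℝ) ≤ M := Nat.cast_nonneg _
    have e8 : (M : ℝ) + 2 + ee ≤ (1 / δ + 2 + ee) * (1 + M * δ) := by
      have : (1 / δ) * (M * δ) = M := by field_simp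
      have h9 : 0 ≤ (2 + ee) * (M * δ) := by positivity
      have h10 : 0 < 1 / δ := by positivity
      nlinarith
    rw [div_le_div_iff₀ hC (den_pos M), e6, mul_pow]
    have hbM : 0 < bet ^ M := pow_pos hb _
    calc bet ^ M * (M + 2 + ee) ≤ bet ^ M * ((1 / δ + 2 + ee) * (1 + δ) ^ M) :=
          mul_le_mul_of_nonneg_left (e8.trans (mul_le_mul_of_nonneg_left e7 hC.le)) hbM.le
      _ = _ := by ring
  calc kap / ((1 / δ + 2 + ee) * (2 : ℝ) ^ (19 / 10 : ℝ)) * (n : ℝ) ^ (-(19 / 10) : ℝ)
      ≤ kap / ((1 / δ + 2 + ee) * (2 : ℝ) ^ (19 / 10 : ℝ)) *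
        ((2 : ℝ) ^ (19 / 10 : ℝ) * bet ^ M) :=
        mul_le_mul_of_nonneg_left e1 (div_pos kap_pos (mul_pos hC h2)).le
    _ = kap * (bet ^ M / (1 / δ + 2 + ee)) := by field_simp
    _ ≤ kap * (lam ^ M / (M + 2 + ee)) := mul_le_mul_of_nonneg_left e5 kap_pos.le
    _ = rad M := by unfold rad; ring

end Pool.Agent.Results.MP_9b7bf4_co.PlanarPower
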